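import Pool.Agent.Helper67.R12.Sheet
import Pool.Agent.Helper25.R8.INJ

/-! # Row INJ of `Pool/Agent/Helper67/R12/Sheet.lean` (MP_798d7d_nt, rank twelve): the two invariants, as
polynomials in the parameter of the pencil, determine the member (a Jacobian modulo 37). -/

set_option autoImplicit false

namespace Pool.Helper67.R12

namespace S25

open Pool.Helper17.R8 (ek q4 q3 q2 q1 q0 fI fJ ST_LINZ ST_VIE)
open Pool.Helper17.R8.INJaux (evv G map_G PG eval_PG ek_map ek_one xv xv_6 G_xv)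

/-- the coordinates of the base -/
def bv : Fin 8 → ℤ :=
  ![-2185, 21240, 1329408, -23598000, -61838640, 2977508160, -12329501184, 0]

/-- the Jacobian modulo 37 -/
def Jac : Fin 8 → Fin 8 → ℤ :=
  ![![12, 25, 2, 14, 4, 9, 1, 3], ![15, 24, 26, 30, 0, 11, 36, 0],
    ![13, 9, 33, 24, 3, 13, 5, 13], ![35, 17, 23, 33, 13, 15, 19, 5],
    ![24, 21, 19, 19, 30, 17, 36, 30], ![26, 22, 13, 15, 0, 24, 18, 27],
    ![12, 33, 32, 32, 12, 20, 25, 9], ![2, 22, 13, 2, 18, 25, 32, 19]]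

/-- its inverse -/
def Jin : Fin 8 → Fin 8 → ℤ :=
  ![![14, 32, 5, 23, 0, 0, 0, 0], ![8, 5, 30, 21, 3, 17, 30, 25],
    ![6, 12, 36, 34, 19, 30, 23, 28], ![23, 29, 20, 36, 18, 29, 2, 0],
    ![8, 10, 0, 20, 10, 34, 26, 30], ![20, 11, 4, 0, 35, 21, 6, 23],
    ![25, 15, 7, 1, 11, 32, 1, 27], ![8, 18, 30, 21, 3, 28, 30, 25]]

theorem jac_num : ∀ r i : Fin 8,
    (G r (fun j => bv j + if j = i then 37 else 0) - G r bv - 37 * Jac r i) % (37 * 37) = 0 := by
  decide +kernel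

theorem jin_num : ∀ j i : Fin 8,
    (∑ r, Jin j r * Jac r i - (if i = j then 1 else 0)) % 37 = 0 := by
  decide +kernel

theorem step (hL : ST_LINZ) (x y : Fin 8 → ℤ) (hG : ∀ r, G r x = G r y)
    (hy : ∀ i, (37 : ℤ) ∣ y i - bv i) (h : ℤ) (hh : h ≠ 0) (hp : (37 : ℤ) ∣ h)
    (hxy : ∀ i, h ∣ x i - y i) (i : Fin 8) : 37 * h ∣ x i - y i := by
  choose L hLL using fun r : Fin 8 => hL (PG r) 37 bv
  -- the gradient modulo 37
  have hJ : ∀ r i, (37 : ℤ) ∣ L r i - Jac r i := by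
    intro r i
    have h1 := hLL r (fun j => bv j + if j = i then 37 else 0) bv 37 (dvd_refl _)
      (fun j => by rw [sub_self]; exact dvd_zero _) (fun j => by
        rw [add_sub_cancel_left]
        split_ifs
        · exact dvd_refl _
        · exact dvd_zero _)
    rw [eval_PG, eval_PG] at h1
    have h2 : ∑ j, L r j * ((bv j + if j = i then 37 else 0) - bv j) = 37 * L r i := by
      have h3 : ∀ j, L r j * ((bv j + if j = i then 37 else 0) - bv j) =
          if j = i then 37 * L r j else 0 := by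
        intro j
        split_ifs <;> ring
      rw [Finset.sum_congr rfl fun j _ => h3 j, Finset.sum_ite_eq' Finset.univ i,
        if_pos (Finset.mem_univ i)]
    rw [h2] at h1
    have h4 : (37 : ℤ) * 37 ∣ G r (fun j => bv j + if j = i then 37 else 0) - G r bv -
        37 * Jac r i := Int.dvd_of_emod_eq_zero (jac_num r i)
    have h5 := dvd_sub h4 h1
    have h6 : G r (fun j => bv j + if j = i then 37 else 0) - G r bv - 37 * Jac r i -
        (G r (fun j => bv j + if j = i then 37 else 0) - G r bv - 37 * L r i) =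
        37 * (L r i - Jac r i) := by ring
    rw [h6] at h5
    exact (mul_dvd_mul_iff_left (by norm_num : (37 : ℤ) ≠ 0)).1 h5
  choose d hd using hxy
  -- the eight equations
  have hE : ∀ r, (37 : ℤ) ∣ ∑ i, Jac r i * d i := by
    intro r
    have h1 := hLL r x y h hp hy (fun i => ⟨d i, hd i⟩)
    rw [eval_PG, eval_PG, hG r, sub_self, zero_sub, dvd_neg] at h1
    have h2 : ∑ i, L r i * (x i - y i) = h * ∑ i, L r i * d i := by
      rw [Finset.mul_sum]
      exact Finset.sum_congr rfl fun i _ => by rw [hd i]; ring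
    rw [h2, mul_comm (37 : ℤ) h] at h1
    have h3 : (37 : ℤ) ∣ ∑ i, L r i * d i := (mul_dvd_mul_iff_left hh).1 h1
    have h4 : ∑ i, Jac r i * d i = ∑ i, L r i * d i - ∑ i, (L r i - Jac r i) * d i := by
      rw [← Finset.sum_sub_distrib]
      exact Finset.sum_congr rfl fun i _ => by ring
    rw [h4]
    exact dvd_sub h3 (Finset.dvd_sum fun i _ => Dvd.dvd.mul_right (hJ r i) _)
  have hdi : (37 : ℤ) ∣ d i := by
    have h1 : (37 : ℤ) ∣ ∑ r, Jin i r * ∑ j, Jac r j * d j :=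
      Finset.dvd_sum fun r _ => Dvd.dvd.mul_left (hE r) _
    have h2 : ∑ r, Jin i r * ∑ j, Jac r j * d j =
        d i + ∑ j, (∑ r, Jin i r * Jac r j - (if j = i then 1 else 0)) * d j := by
      have h3 : ∑ r, Jin i r * ∑ j, Jac r j * d j = ∑ j, (∑ r, Jin i r * Jac r j) * d j := by
        have h4 : ∀ r, Jin i r * ∑ j, Jac r j * d j = ∑ j, Jin i r * Jac r j * d j := by
          intro r
          rw [Finset.mul_sum]
          exact Finset.sum_congr rfl fun j _ => by ring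
        rw [Finset.sum_congr rfl fun r _ => h4 r, Finset.sum_comm]
        exact Finset.sum_congr rfl fun j _ => by rw [Finset.sum_mul]
      have h5 : ∑ j, (∑ r, Jin i r * Jac r j - (if j = i then 1 else 0)) * d j =
          ∑ j, (∑ r, Jin i r * Jac r j) * d j - d i := by
        have h6 : ∀ j, (∑ r, Jin i r * Jac r j - (if j = i then 1 else 0)) * d j =
            (∑ r, Jin i r * Jac r j) * d j - (if j = i then d j else 0) := by
          intro j
          split_ifs <;> ring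
        rw [Finset.sum_congr rfl fun j _ => h6 j, Finset.sum_sub_distrib,
          Finset.sum_ite_eq' Finset.univ i, if_pos (Finset.mem_univ i)]
      rw [h3, h5]
      ring
    rw [h2] at h1
    have h7 : (37 : ℤ) ∣ ∑ j, (∑ r, Jin i r * Jac r j - (if j = i then 1 else 0)) * d j :=
      Finset.dvd_sum fun j _ => Dvd.dvd.mul_right (Int.dvd_of_emod_eq_zero (jin_num i j)) _
    exact (dvd_add_left h7).1 h1
  rw [hd i, mul_comm (37 : ℤ) h]
  exact mul_dvd_mul_left h hdi

theorem ek_mod (s s' : Fin 8 → ℤ) (h : ∀ i, (37 : ℤ) ∣ s i - s' i) (k : ℕ) :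
    (37 : ℤ) ∣ ek s k - ek s' k := by
  have h1 : ((ek s k - ek s' k : ℤ) : ZMod 37) = 0 := by
    have h2 := ek_map (Int.castRingHom (ZMod 37)) s k
    have h3 := ek_map (Int.castRingHom (ZMod 37)) s' k
    have h4 : (fun i => (Int.castRingHom (ZMod 37)) (s i)) =
        fun i => (Int.castRingHom (ZMod 37)) (s' i) := by
      funext i
      have h5 : ((s i - s' i : ℤ) : ZMod 37) = 0 := (ZMod.intCast_zmod_eq_zero_iff_dvd _ 37).2 (h i)
      rw [Int.cast_sub] at h5
      exact sub_eq_zero.1 h5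
    rw [h4] at h2
    rw [Int.cast_sub]
    exact sub_eq_zero.2 (h2.trans h3.symm)
  exact (ZMod.intCast_zmod_eq_zero_iff_dvd _ 37).1 h1

theorem base_ek : ek sb 2 = -2185 ∧ ek sb 3 = 21240 ∧ ek sb 4 = 1329408 ∧
    ek sb 5 = -23598000 ∧ ek sb 6 = -61838640 ∧ ek sb 7 = 2977508160 ∧
    ek sb 8 = -12329501184 := by
  decide +kernel

theorem ss_mod (hR : ST_REL) (a : Fin 3 → ℕ) (i : Fin 8) : (37 : ℤ) ∣ sa a i - sb i := by
  obtain ⟨-, -, -, -, h1, -⟩ := hR (a, 0)
  have h2 : (37 : ℤ) ∣ ((QQ.factorial : ℕ) : ℤ) := by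
    have h3 : 37 ∣ Nat.factorial QQ := Nat.dvd_factorial (by norm_num) (by unfold QQ; norm_num)
    exact_mod_cast h3
  exact h2.trans (h1 i)

theorem base_inj : ∀ i j : Fin 8, (37 : ℤ) ∣ sb i - sb j → i = j := by
  decide +kernel

theorem ss_sum (u : Fin 3 → ℤ) : ∑ i, ss u i = 0 := by
  rw [Fin.sum_univ_eight]
  simp only [ss, Matrix.cons_val]
  ring

theorem bv_6 : bv 6 = -12329501184 := by
  simp only [bv, Matrix.cons_val]

theorem xv_mod (hR : ST_REL) (a : Fin 3 → ℕ) (β : ℤ) (hβ : (37 : ℤ) ∣ β) (i : Fin 8) :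
    (37 : ℤ) ∣ xv (ek (sa a)) β i - bv i := by
  have h1 : ∀ k, (37 : ℤ) ∣ ek (sa a) k - ek sb k := ek_mod _ _ (ss_mod hR a)
  obtain ⟨e2, e3, e4, e5, e6, e7, e8⟩ := base_ek
  fin_cases i
  · change (37 : ℤ) ∣ ek (sa a) 2 - (-2185)
    rw [← e2]
    exact h1 2
  · change (37 : ℤ) ∣ ek (sa a) 3 - 21240
    rw [← e3]
    exact h1 3
  · change (37 : ℤ) ∣ ek (sa a) 4 - 1329408
    rw [← e4]
    exact h1 4
  · change (37 : ℤ) ∣ ek (sa a) 5 - (-23598000)
    rw [← e5]
    exact h1 5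
  · change (37 : ℤ) ∣ ek (sa a) 6 - (-61838640)
    rw [← e6]
    exact h1 6
  · change (37 : ℤ) ∣ ek (sa a) 7 - 2977508160
    rw [← e7]
    exact h1 7
  · change (37 : ℤ) ∣ xv (ek (sa a)) β 6 - bv 6
    rw [xv_6, bv_6, ← e8]
    exact h1 8
  · change (37 : ℤ) ∣ β - 0
    rwa [sub_zero]

theorem eq_zero_of_pow {d : ℤ} (h : ∀ k : ℕ, (37 : ℤ) ^ (k + 1) ∣ d) : d = 0 := by
  by_contra hd
  have h1 := Int.natAbs_dvd_natAbs.2 (h d.natAbs)
  have h2 := Nat.le_of_dvd (Int.natAbs_pos.2 hd) h1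
  rw [Int.natAbs_pow] at h2
  have h3 : d.natAbs < 37 ^ d.natAbs := Nat.lt_pow_self (by norm_num)
  have h4 : 37 ^ d.natAbs ≤ 37 ^ (d.natAbs + 1) := Nat.pow_le_pow_right (by norm_num) (Nat.le_succ _)
  have h5 : (37 : ℤ).natAbs = 37 := rfl
  rw [h5] at h2
  omega

theorem MM_ne : MM ≠ 0 := by
  unfold MM
  have h1 := Nat.factorial_pos QQ
  have h2 : (0 : ℤ) < ((QQ.factorial : ℕ) : ℤ) := Int.natCast_pos.2 h1
  exact mul_ne_zero (by norm_num) h2.ne'

theorem uu_inj {a a' : Fin 3 → ℕ} (h : ∀ i, uu a i = uu a' i) : a = a' := by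
  funext i
  have h1 := h i
  unfold uu at h1
  have h2 : MM * (a i : ℤ) = MM * (a' i : ℤ) := add_left_cancel h1
  have h3 := mul_left_cancel₀ MM_ne h2
  exact_mod_cast h3

theorem ss_inj (u v : Fin 3 → ℤ) (h : ∀ i, ss u i = ss v i) : ∀ i, u i = v i := by
  have h0 := h 0
  have h2 := h 2
  have h6 := h 6
  simp only [ss, Matrix.cons_val] at h0 h2 h6
  intro i
  fin_cases i
  · change u 0 = v 0
    omega
  · change u 1 = v 1
    omega
  · change u 2 = v 2
    omega

end S25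

open S25 Pool.Helper17.R8.INJaux in
open Pool.Helper17.R8 (ek) in
/-- Row INJ. -/
theorem st_INJ (hL : Pool.Helper17.R8.ST_LINZ) (hV : Pool.Helper17.R8.ST_VIE) (hR : ST_REL) :
    ST_INJ := by
  intro a a' β hβ hτ
  set e := ek (sa a) with he
  set e' := ek (sa a') with he'
  have hG : ∀ r, G r (xv e' β) = G r (xv e 0) := by
    intro r
    rw [G_xv, G_xv]
    split_ifs
    · have := (hτ (((r : ℕ) % 4 : ℕ) : ℤ)).1
      rw [zero_add, add_comm β]
      exact this
    · have := (hτ (((r : ℕ) % 4 : ℕ) : ℤ)).2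
      rw [zero_add, add_comm β]
      exact this
  have hy : ∀ i, (37 : ℤ) ∣ xv e 0 i - S25.bv i := S25.xv_mod hR a 0 (dvd_zero _)
  have hx : ∀ i, (37 : ℤ) ∣ xv e' β i - S25.bv i := S25.xv_mod hR a' β hβ
  have hk : ∀ k : ℕ, ∀ i, (37 : ℤ) ^ (k + 1) ∣ xv e' β i - xv e 0 i := by
    intro k
    induction k with
    | zero =>
      intro i
      rw [zero_add, pow_one]
      have := dvd_sub (hx i) (hy i)
      rwa [sub_sub_sub_cancel_right] at this
    | succ k ih =>
      intro i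
      rw [pow_succ, mul_comm]
      exact S25.step hL _ _ hG hy _ (pow_ne_zero _ (by norm_num))
        (dvd_pow_self _ (Nat.succ_ne_zero k)) ih i
  have hz : ∀ i, xv e' β i = xv e 0 i :=
    fun i => sub_eq_zero.1 (S25.eq_zero_of_pow fun k => hk k i)
  have z2 : e' 2 = e 2 := hz 0
  have z3 : e' 3 = e 3 := hz 1
  have z4 : e' 4 = e 4 := hz 2
  have z5 : e' 5 = e 5 := hz 3
  have z6 : e' 6 = e 6 := hz 4
  have z7 : e' 7 = e 7 := hz 5
  have z8 : e' 8 = e 8 := by
    have := hz 6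
    rwa [xv_6, xv_6] at this
  have z1 : e' 1 = e 1 := by
    rw [he, he', ek_one, ek_one]
    unfold sa
    rw [S25.ss_sum, S25.ss_sum]
  have hprod : ∀ x : ℤ, ∏ i, (x - sa a' i) = ∏ i, (x - sa a i) := by
    intro x
    rw [hV ℤ (sa a') x, hV ℤ (sa a) x, ← he, ← he', z1, z2, z3, z4, z5, z6, z7, z8]
  have hs : ∀ i, sa a i = sa a' i := by
    intro i
    have h1 : ∏ j, (sa a i - sa a' j) = 0 := by
      rw [hprod]
      exact Finset.prod_eq_zero (Finset.mem_univ i) (sub_self _)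
    obtain ⟨j, _, hj⟩ := Finset.prod_eq_zero_iff.1 h1
    have h2 : sa a i = sa a' j := sub_eq_zero.1 hj
    have h3 : (37 : ℤ) ∣ sb i - sb j := by
      have h4 := dvd_sub (S25.ss_mod hR a' j) (S25.ss_mod hR a i)
      rw [h2] at h4
      rwa [sub_sub_sub_cancel_left] at h4
    rw [h2, S25.base_inj i j h3]
  exact S25.uu_inj (S25.ss_inj (uu a) (uu a') hs)

end Pool.Helper67.R12
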